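import Mathlib
import Pool.Agent.Helper841.SnowC7

set_option autoImplicit false

/-!
For every `q ∈ (2,∞)` the space `L_q([0,1])` has neither a coarse embedding nor a uniform
embedding into `ℓ_q`.
-/

namespace Pool.Agent.Results.MP_efb015_an.NoEmbedding

open MeasureTheory Filter

/-- The real Banach space `L_q([0,1])` with Lebesgue measure. -/
noncomputable abbrev Lq (q : ENNReal) := Lp ℝ q (volume.restrict (Set.Icc (0 : ℝ) 1))

/-- The real sequence space `ℓ_q`. -/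
abbrev ellq (q : ENNReal) := lp (fun _ : ℕ => ℝ) q

/-- `f` is a coarse embedding. -/
def IsCoarseEmbedding {X Y : Type} [PseudoMetricSpace X] [PseudoMetricSpace Y] (f : X → Y) :
    Prop :=
  ∃ ρ₁ ρ₂ : ℝ → ℝ, Monotone ρ₁ ∧ Monotone ρ₂ ∧ Tendsto ρ₁ atTop atTop ∧
    ∀ x y, ρ₁ (dist x y) ≤ dist (f x) (f y) ∧ dist (f x) (f y) ≤ ρ₂ (dist x y)

/-- **Main theorem.** -/
theorem result (q : ENNReal) [Fact (1 ≤ q)] (h2 : 2 < q) (hq : q ≠ ⊤) :
    (¬ ∃ f : Lq q → ellq q, IsCoarseEmbedding f) ∧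
      ¬ ∃ f : Lq q → ellq q, IsUniformEmbedding f := by
  refine ⟨?_, Pool.Agent.Helper841.Snow.no_uniform h2 hq⟩
  rintro ⟨f, ρ₁, ρ₂, h⟩
  exact Pool.Agent.Helper841.Snow.no_coarse h2 hq ⟨f, ρ₁, ρ₂, h⟩

end Pool.Agent.Results.MP_efb015_an.NoEmbedding
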